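import Pool.Agent.Q267.FLF.Main

/-!
# MP_e3a7ef_co: the second differences of the Fennessey–Larcombe–French sequence are infinitely log-convex (Q1, yes)

`V` is the Fennessey–Larcombe–French sequence and `W n = V n ^ 2 - V (n-1) V (n+1)`.  We show that `(W_n)_{n ≥ 2}` is the moment
sequence of a finite measure on `[0, 256]`; it is therefore infinitely log-convex.
-/
set_option autoImplicit false

namespace Pool.Agent.Results.MP_e3a7ef_co.StieltjesMoments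

open MeasureTheory

/-- the Fennessey–Larcombe–French sequence: `V_0 = 1`, `V_1 = 8` and
`V_n = 8 (3 n² - n - 1) / n² · V_(n-1) - 128 (n - 2) / (n - 1) · V_(n-2)` for `n ≥ 2` -/
noncomputable def V : ℕ → ℝ
  | 0 => 1
  | 1 => 8
  | (m + 2) => 8 * (3 * ((m + 2 : ℕ) : ℝ) ^ 2 - ((m + 2 : ℕ) : ℝ) - 1) / ((m + 2 : ℕ) : ℝ) ^ 2 * V (m + 1)
      - 128 * (((m + 2 : ℕ) : ℝ) - 2) / (((m + 2 : ℕ) : ℝ) - 1) * V m

/-- `W_n = V_n² - V_(n-1) V_(n+1)` (used for `n ≥ 2`) -/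
noncomputable def W (n : ℕ) : ℝ := V n ^ 2 - V (n - 1) * V (n + 1)

/-- the operator `ℒ(x)_n = x_(n-1) x_(n+1) - x_n²`; if `x` starts at the index `m`, then `ℒ(x)` starts at `m + 1` -/
def L (x : ℕ → ℝ) (n : ℕ) : ℝ := x (n - 1) * x (n + 1) - x n ^ 2

/-- `(x_n)_{n ≥ m}` is `k`-log-convex: `x` and `ℒ^j(x)`, `1 ≤ j ≤ k`, are nonnegative (`ℒ^j(x)` starts at the index `m + j`) -/
def KLogConvex (k m : ℕ) (x : ℕ → ℝ) : Prop := ∀ j : ℕ, j ≤ k → ∀ n : ℕ, m + j ≤ n → 0 ≤ (L^[j] x) n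

/-- `(x_n)_{n ≥ m}` is infinitely log-convex -/
def InfinitelyLogConvex (m : ℕ) (x : ℕ → ℝ) : Prop := ∀ k : ℕ, 1 ≤ k → KLogConvex k m x

lemma V_eq : ∀ n : ℕ, V n = Pool.Agent.Q267.FLF.V n ∧ V (n + 1) = Pool.Agent.Q267.FLF.V (n + 1) := by
  intro n
  induction n with
  | zero => simp [V, Pool.Agent.Q267.FLF.V]
  | succ n ih =>
    refine ⟨ih.2, ?_⟩
    rw [V, Pool.Agent.Q267.FLF.V, ih.1, ih.2]
    push_cast
    congr 2
    · ring
    
lemma W_eq (n : ℕ) : W (n + 2) = ∫ t, t ^ n ∂Pool.Agent.Q267.FLF.rho := by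
  rw [← Pool.Agent.Q267.FLF.main n]
  unfold W
  have e : n + 2 - 1 = n + 1 := by omega
  rw [e, (V_eq (n + 2)).1, (V_eq (n + 1)).1, (V_eq (n + 2)).2]

lemma iter (x : ℕ → ℝ) (m : ℕ) (h : Pool.Agent.Q267.FLF.IsMom (fun n => x (m + n))) (j : ℕ) :
    Pool.Agent.Q267.FLF.IsMom (fun n => (L^[j] x) (m + j + n)) := by
  induction j with
  | zero => simpa using h
  | succ j ih =>
    have h2 := ih.step
    have e : (fun n => (L^[j + 1] x) (m + (j + 1) + n))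
        = fun n => (L^[j] x) (m + j + n) * (L^[j] x) (m + j + (n + 2)) - (L^[j] x) (m + j + (n + 1)) ^ 2 := by
      funext n
      rw [Function.iterate_succ_apply']
      unfold L
      have e1 : m + (j + 1) + n - 1 = m + j + n := by omega
      have e2 : m + (j + 1) + n + 1 = m + j + (n + 2) := by omega
      have e3 : m + (j + 1) + n = m + j + (n + 1) := by omega
      rw [e1, e2, e3]
    rw [e]
    exact h2

/-- **Q1, affirmative.** The sequence `(W_n)_{n ≥ 2}` is infinitely log-convex; moreover `(W_(n+2))_{n ≥ 0}` is the moment sequence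
of a finite measure on `[0, 256]`. -/
theorem result :
    InfinitelyLogConvex 2 W ∧
    ∃ ρ : Measure ℝ, IsFiniteMeasure ρ ∧ ρ (Set.Icc 0 256)ᶜ = 0 ∧ ∀ n : ℕ, W (n + 2) = ∫ t, t ^ n ∂ρ := by
  refine ⟨?_, Pool.Agent.Q267.FLF.rho, Pool.Agent.Q267.FLF.rho_finite, Pool.Agent.Q267.FLF.rho_ae, W_eq⟩
  intro k _ j _ n hn
  have h0 : Pool.Agent.Q267.FLF.IsMom (fun n => W (2 + n)) :=
    ⟨Pool.Agent.Q267.FLF.rho, 256, Pool.Agent.Q267.FLF.rho_finite, Pool.Agent.Q267.FLF.rho_ae, fun n => by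
      show W (2 + n) = _
      rw [add_comm]
      exact W_eq n⟩
  obtain ⟨i, rfl⟩ := Nat.exists_eq_add_of_le hn
  exact (iter W 2 h0 j).nonneg i

end Pool.Agent.Results.MP_e3a7ef_co.StieltjesMoments
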